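import Pool.Agent.N206.HJ.Stm

/-! # Project HJ, part START (helper123): the starting commutator -/

set_option autoImplicit false

namespace Pool.Agent.N123.HJ

open Pool.Agent.N206.HJ MvPowerSeries

theorem t_START (p : ℕ) [Fact p.Prime] (h1 : S_DET2 p) (h2 : S_TAY p) (h3 : S_PPOW p) :
    S_START p := by
  intro g v a E m j R hg hv hj hR hRm hvX i
  have hg' : g⁻¹ ∈ Ga p 1 := inv_mem hg
  -- `v` is deep
  have hvm : ∀ i, v (X i) - X i ∈ M p m := by
    intro i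
    rw [hvX, add_sub_cancel_left]
    exact M_mul_right (Xpow_mem a m)
  have hvG : v ∈ Ga p (m - 1) := by
    refine h1.2 v hv (m - 1) fun i => ?_
    rw [show m - 1 + 1 = m by omega]
    exact hvm i
  have hvG' : v⁻¹ ∈ Ga p (m - 1) := inv_mem hvG
  -- Taylor formula
  have htay : ∀ f ∈ M p 1, v f - f - X a ^ m * vf E f ∈ M p (m + R) := by
    intro f hf
    have h4 := h2 v m (by omega) hv hvm 1 f hf
    have h5 : (fun i => v (X i) - X i) = fun i => X a ^ m * E i := by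
      funext i
      rw [hvX, add_sub_cancel_left]
    rw [h5, vf_smul_left] at h4
    exact M_anti (by omega) h4
  -- the powers
  have hpow : (g (X a)) ^ m - X a ^ m ∈ M p (m + R) := by
    have h4 := h3 (g (X a) - X a) a 2 m j (by
      have := Ga_X hg a
      exact this) (by omega) hj
    rw [add_sub_cancel] at h4
    exact M_anti (by omega) h4
  -- `w = g v g⁻¹`
  have hw1 : ∀ i, (g * v * g⁻¹) (X i) - X i - X a ^ m * g (vf E (g⁻¹ (X i))) ∈ M p (m + R) := by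
    intro i
    have hy : g⁻¹ (X i) ∈ M p 1 := Ga_pres hg' (X_mem i)
    have h4 : g (v (g⁻¹ (X i)) - g⁻¹ (X i) - X a ^ m * vf E (g⁻¹ (X i))) ∈ M p (m + R) :=
      Ga_pres hg (htay _ hy)
    have h5 : (g * v * g⁻¹) (X i) - X i - X a ^ m * g (vf E (g⁻¹ (X i))) =
        g (v (g⁻¹ (X i)) - g⁻¹ (X i) - X a ^ m * vf E (g⁻¹ (X i))) +
          ((g (X a)) ^ m - X a ^ m) * g (vf E (g⁻¹ (X i))) := by
      rw [mul_ap, mul_ap, map_sub, map_sub, map_mul, map_pow, inv_ap]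
      ring
    rw [h5]
    exact Ideal.add_mem _ h4 (M_mul_right hpow)
  have hw : g * v * g⁻¹ ∈ Ga p 1 := mul_mem (mul_mem hg hv) hg'
  have hwm : ∀ i, (g * v * g⁻¹) (X i) - X i ∈ M p m := by
    intro i
    have h4 : (g * v * g⁻¹) (X i) - X i =
        ((g * v * g⁻¹) (X i) - X i - X a ^ m * g (vf E (g⁻¹ (X i)))) +
          X a ^ m * g (vf E (g⁻¹ (X i))) := by ring
    rw [h4]
    exact Ideal.add_mem _ (M_anti (by omega) (hw1 i)) (M_mul_right (Xpow_mem a m))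
  have hwG : g * v * g⁻¹ ∈ Ga p (m - 1) := by
    refine h1.2 _ hw (m - 1) fun i => ?_
    rw [show m - 1 + 1 = m by omega]
    exact hwm i
  -- the inverse of `v`
  have hXE : X a ^ m * E i ∈ M p m := M_mul_right (Xpow_mem a m)
  have hr : v⁻¹ (X a ^ m * E i) - X a ^ m * E i ∈ M p (m + R) :=
    M_anti (by omega) (Ga_sub hvG' hXE)
  have hvi : v⁻¹ (X i) = X i - v⁻¹ (X a ^ m * E i) := by
    have h4 : v⁻¹ (v (X i)) = X i := ap_inv v (X i)
    rw [hvX, map_add] at h4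
    exact eq_sub_of_add_eq h4
  have hw2 : (g * v * g⁻¹) (X a ^ m * E i) - X a ^ m * E i ∈ M p (m + R) :=
    M_anti (by omega) (Ga_sub hwG hXE)
  have h6 : (g * v * g⁻¹ * v⁻¹) (X i) - X i - X a ^ m * (g (vf E (g⁻¹ (X i))) - E i) =
      ((g * v * g⁻¹) (X i) - X i - X a ^ m * g (vf E (g⁻¹ (X i)))) -
        ((g * v * g⁻¹) (X a ^ m * E i) - X a ^ m * E i) -
        (g * v * g⁻¹) (v⁻¹ (X a ^ m * E i) - X a ^ m * E i) := by
    rw [mul_ap (g * v * g⁻¹) v⁻¹, hvi, map_sub, map_sub]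
    ring
  show (g * v * g⁻¹ * v⁻¹) (X i) - X i - X a ^ m * (g (vf E (g⁻¹ (X i))) - E i) ∈ M p (m + R)
  rw [h6]
  exact Ideal.sub_mem _ (Ideal.sub_mem _ (hw1 i) hw2) (Ga_pres hw hr)

end Pool.Agent.N123.HJ
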